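import Pool.Agent.SGL.StmtsU

/-!
# SGL, row BCI: the contour of the bottom slice is increasing
-/

set_option autoImplicit false

namespace Pool.Agent.SGL.H12

open Pool.Agent.SGE Pool.Agent.SGP Pool.Agent.SGY Pool.Agent.SGD

/-- a relation between all consecutive elements is a chain -/
theorem chain_con {V : Type} {R : V → V → Prop} : ∀ (C : List V),
    (∀ x y, Con C x y → R x y) → C.IsChain R
  | [], _ => List.IsChain.nil
  | [x], _ => List.IsChain.singleton x
  | x :: y :: L, h => by
    refine List.isChain_cons_cons.2 ⟨h x y ⟨[], L, rfl⟩, ?_⟩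
    refine chain_con (y :: L) fun u v huv => h u v ?_
    obtain ⟨P, Q, hPQ⟩ := huv
    exact ⟨x :: P, Q, by rw [hPQ]; rfl⟩

/-- the consecutive elements of a list with three elements -/
theorem con_tri {V : Type} {a b c x y : V} (h : Con [a, c, b] x y) :
    (x = a ∧ y = c) ∨ (x = c ∧ y = b) := by
  obtain ⟨P, Q, hPQ⟩ := h
  match P, hPQ with
  | [], hPQ =>
    simp only [List.nil_append, List.cons.injEq] at hPQ
    exact Or.inl ⟨hPQ.1.symm, hPQ.2.1.symm⟩
  | [p], hPQ =>
    simp only [List.cons_append, List.nil_append, List.cons.injEq] at hPQ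
    exact Or.inr ⟨hPQ.2.1.symm, hPQ.2.2.1.symm⟩
  | p :: q :: P', hPQ =>
    have := congrArg List.length hPQ
    simp only [List.length_cons, List.length_nil, List.length_append] at this
    omega

/-- Row BCI. -/
theorem bci (bnd : BndStmt) (bn2 : Bn2Stmt) : BciStmt := by
  intro V _ a b c E F K C₁ C₂ h k D x y π he
  have hab : a ≠ b := h.nt.ab
  have hnd := h.nt.nd
  have hcb : c ≠ b := by
    simp only [List.nodup_cons, List.mem_cons, List.not_mem_nil, or_false, not_or] at hnd
    exact hnd.2.1
  have hbU : b ∉ K ∪ {a, c} := by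
    rintro (hb | hb)
    · exact (h.sub hb).2.1 rfl
    · rcases hb with hb | hb
      · exact hab hb.symm
      · exact hcb hb.symm
  have hls := h.n2.ls
  have hdl : C₂ = C₂.dropLast ++ [a] := by
    have hne : C₂ ≠ [] := by
      intro h0
      rw [h0] at hls
      simp at hls
    have h1 := List.dropLast_append_getLast hne
    have h2 : C₂.getLast hne = a := by
      rw [List.getLast?_eq_getLast_of_ne_nil hne] at hls
      exact Option.some.inj hls
    rw [h2] at h1
    exact h1.symm
  have hna : a ∉ C₂.dropLast := by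
    intro ha
    have hn := h.n2.nd
    rw [hdl] at hn
    exact (List.nodup_append.1 hn).2.2 a ha a (by simp) rfl
  haveI : Trans (fun u w : V => x u < x w) (fun u w : V => x u < x w)
      (fun u w : V => x u < x w) := ⟨fun h1 h2 => lt_trans h1 h2⟩
  refine List.isChain_iff_pairwise.1 (chain_con _ fun u w hc => ?_)
  obtain ⟨P, Q, hPQ⟩ := hc
  have hu : u ≠ a := by
    rintro rfl
    exact hna (by rw [hPQ]; simp)
  have hw : w ≠ a := by
    rintro rfl
    exact hna (by rw [hPQ]; simp)
  have hcon : Con C₂ u w := by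
    refine ⟨P, Q ++ [a], ?_⟩
    rw [hdl, hPQ]
    simp
  obtain ⟨⟨hE, hu1, hw1⟩, hno⟩ := (bn2 h.n2).1 u w hcon
  have hmem : ∀ t : V, t ∈ K ∪ {a, c} → t ≠ a → t ∈ K ∪ {c} := by
    rintro t (ht | ht) hta
    · exact Or.inl ht
    · rcases ht with ht | ht
      · exact absurd ht hta
      · exact Or.inr ht
  by_cases hz : ∃ z, F u w z
  · obtain ⟨z, hz⟩ := hz
    exact he.f2 u (hmem u hu1 hu) w (hmem w hw1 hw) z (fun hzU => hno z ⟨hz, hu1, hw1, hzU⟩) hz
  · exfalso
    push Not at hz
    rcases bnd h.nt u w hE hz with h1 | ⟨_, h2⟩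
    · rcases con_tri h1 with ⟨h3, _⟩ | ⟨_, h3⟩
      · exact hu h3
      · exact hbU (h3 ▸ hw1)
    · exact hw h2

end Pool.Agent.SGL.H12
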